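import Mathlib

set_option autoImplicit false

/-!
# The mod 2 group algebra of the first Grigorchuk group

We show that the Jacobson radical of the group algebra of the Grigorchuk group over the field with
two elements is strictly smaller than the augmentation ideal.

Idea. Let `HL`, `HR` be the subgroups of `G` acting only on the left, only on the right subtree.
They commute and meet trivially. If `w = J` then every non-nilpotent `X` in the augmentation ideal
is transcendental, hence there is an additive functional to the rational function field sending `1`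
to `1` and turning left multiplication by `X` into multiplication by the variable `t`.
For `X` supported on `HL` and `Y` supported on `HR` (both non-nilpotent) the product functional kills
the right ideal generated by `X - (1 + Y)`, so this element is not invertible, although it is minus
an element of `1 + w`.
The non-nilpotent elements come from `b + ad`, whose powers are non-zero by a leading term argument
along the Gray code order on the levels of the tree.
-/

open Polynomial

namespace Pool.Agent.Results.MP_2e8808_al.GrigorchukJacobson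

/-- The automorphism `a` of the binary tree: it flips the first letter. -/
def fa : List Bool → List Bool
  | [] => []
  | x :: w => (!x) :: w

mutual
/-- `b(0w) = 0 a(w)`, `b(1w) = 1 c(w)`. -/
def fb : List Bool → List Bool
  | [] => []
  | false :: w => false :: fa w
  | true :: w => true :: fc w
/-- `c(0w) = 0 a(w)`, `c(1w) = 1 d(w)`. -/
def fc : List Bool → List Bool
  | [] => []
  | false :: w => false :: fa w
  | true :: w => true :: fd w
/-- `d(0w) = 0w`, `d(1w) = 1 b(w)`. -/
def fd : List Bool → List Bool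
  | [] => []
  | false :: w => false :: w
  | true :: w => true :: fb w
end

theorem fa_fa (w : List Bool) : fa (fa w) = w := by
  cases w <;> simp [fa]

theorem fbcd_invol (w : List Bool) : fb (fb w) = w ∧ fc (fc w) = w ∧ fd (fd w) = w := by
  induction w with
  | nil => simp [fb, fc, fd]
  | cons x w ih =>
    cases x <;> simp [fb, fc, fd, fa_fa, ih]

theorem fb_fb (w : List Bool) : fb (fb w) = w := (fbcd_invol w).1
theorem fc_fc (w : List Bool) : fc (fc w) = w := (fbcd_invol w).2.1
theorem fd_fd (w : List Bool) : fd (fd w) = w := (fbcd_invol w).2.2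

/-- The automorphism `a` as a permutation of the vertex set of the tree. -/
def pa : Equiv.Perm (List Bool) := ⟨fa, fa, fa_fa, fa_fa⟩
/-- The automorphism `b` as a permutation of the vertex set of the tree. -/
def pb : Equiv.Perm (List Bool) := ⟨fb, fb, fb_fb, fb_fb⟩
/-- The automorphism `c` as a permutation of the vertex set of the tree. -/
def pc : Equiv.Perm (List Bool) := ⟨fc, fc, fc_fc, fc_fc⟩
/-- The automorphism `d` as a permutation of the vertex set of the tree. -/
def pd : Equiv.Perm (List Bool) := ⟨fd, fd, fd_fd, fd_fd⟩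

/-- The first Grigorchuk group, the group generated by `a, b, c, d`. -/
def Grig : Subgroup (Equiv.Perm (List Bool)) := Subgroup.closure {pa, pb, pc, pd}

/-- The augmentation map, the algebra map sending every group element to `1`; its kernel is the
augmentation (fundamental) ideal. -/
noncomputable def aug : MonoidAlgebra (ZMod 2) Grig →ₐ[ZMod 2] ZMod 2 :=
  MonoidAlgebra.lift (ZMod 2) (ZMod 2) Grig 1

theorem length_fa (w : List Bool) : (fa w).length = w.length := by
  cases w <;> simp [fa]

theorem length_fbcd (w : List Bool) :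
    (fb w).length = w.length ∧ (fc w).length = w.length ∧ (fd w).length = w.length := by
  induction w with
  | nil => simp [fb, fc, fd]
  | cons x w ih =>
    cases x <;> simp [fb, fc, fd, length_fa, ih]

/-- Gray code position. -/
def pos : List Bool → ℕ
  | [] => 0
  | true :: w => 2 * pos w + pos w % 2
  | false :: w => 2 * pos w + 1 - pos w % 2

theorem pos_lt (w : List Bool) : pos w < 2 ^ w.length := by
  induction w with
  | nil => simp [pos]
  | cons x w ih =>
    cases x <;> simp only [pos, List.length_cons, pow_succ] <;> omega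

theorem pos_inj (u v : List Bool) (hl : u.length = v.length) (h : pos u = pos v) : u = v := by
  induction u generalizing v with
  | nil => cases v <;> simp_all
  | cons x u ih =>
    cases v with
    | nil => simp at hl
    | cons y v =>
      simp only [List.length_cons, add_left_inj] at hl
      have key : pos u = pos v ∧ x = y := by
        rcases Nat.mod_two_eq_zero_or_one (pos u) with hu | hu <;>
        rcases Nat.mod_two_eq_zero_or_one (pos v) with hv | hv <;>
        cases x <;> cases y <;> simp only [pos, hu, hv] at h <;>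
          first | (exact ⟨by omega, rfl⟩) | (exfalso; omega)
      rw [ih v hl key.1, key.2]

theorem pos_fa (w : List Bool) (hw : w ≠ []) :
    (pos w % 2 = 0 → pos (fa w) = pos w + 1) ∧ (pos w % 2 = 1 → pos (fa w) + 1 = pos w) := by
  cases w with
  | nil => exact absurd rfl hw
  | cons x w =>
    cases x <;> simp only [pos, fa, Bool.not_true, Bool.not_false] <;> omega

theorem fa_eq_nil (w : List Bool) (h : fa w = []) : w = [] := by
  cases w <;> simp_all [fa]

theorem pos_bcd (w : List Bool) :
    (pos w % 2 = 0 → (pos (fb w) ≤ pos w ∧ pos w ≤ pos (fb w) + 1) ∧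
      (pos (fc w) ≤ pos w ∧ pos w ≤ pos (fc w) + 1) ∧
      (pos (fd w) ≤ pos w ∧ pos w ≤ pos (fd w) + 1)) ∧
    (pos w % 2 = 1 → (pos w ≤ pos (fb w) ∧ pos (fb w) ≤ pos w + 1) ∧
      (pos w ≤ pos (fc w) ∧ pos (fc w) ≤ pos w + 1) ∧
      (pos w ≤ pos (fd w) ∧ pos (fd w) ≤ pos w + 1)) := by
  induction w with
  | nil => simp [fb, fc, fd, pos]
  | cons x w ih =>
    cases x with
    | false =>
      by_cases hw : w = []
      · subst hw; simp [fb, fc, fd, pos, fa]
      · have := pos_fa w hw
        simp only [fb, fc, fd, pos]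
        omega
    | true =>
      simp only [fb, fc, fd, pos]
      omega

theorem fa_ne (w : List Bool) (hw : w ≠ []) : fa w ≠ w := by
  cases w with
  | nil => exact absurd rfl hw
  | cons x w => cases x <;> simp [fa]

theorem pos_fix (w : List Bool) (hw : pos w % 2 = 1) (hlt : pos w + 1 < 2 ^ w.length) :
    (fd w = w → pos (fb w) = pos w + 1 ∧ fd (fb w) = fb w) ∧
    (fb w = w → pos (fc w) = pos w + 1 ∧ fb (fc w) = fc w) ∧
    (fc w = w → pos (fd w) = pos w + 1 ∧ fc (fd w) = fd w) := by
  induction w with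
  | nil => simp [pos] at hw
  | cons x w ih =>
    simp only [List.length_cons, pow_succ] at hlt
    cases x with
    | false =>
      by_cases hne : w = []
      · subst hne; simp [pos] at hlt
      · have h1 := pos_fa w hne
        have h2 := fa_ne w hne
        simp only [pos] at hw hlt
        refine ⟨?_, ?_, ?_⟩
        · intro _
          simp only [fb, fd, pos]
          refine ⟨by omega, trivial⟩
        · intro h
          simp only [fb, List.cons.injEq, true_and] at h
          exact absurd h h2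
        · intro h
          simp only [fc, List.cons.injEq, true_and] at h
          exact absurd h h2
    | true =>
      simp only [pos] at hw hlt
      have ih' := ih (by omega) (by omega)
      obtain ⟨i1, i2, i3⟩ := ih'
      refine ⟨?_, ?_, ?_⟩
      · intro h
        simp only [fd, List.cons.injEq, true_and] at h
        have := i2 h
        simp only [fb, fd, pos, List.cons.injEq, true_and]
        refine ⟨by omega, this.2⟩
      · intro h
        simp only [fb, List.cons.injEq, true_and] at h
        have := i3 h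
        simp only [fb, fc, pos, List.cons.injEq, true_and]
        refine ⟨by omega, this.2⟩
      · intro h
        simp only [fc, List.cons.injEq, true_and] at h
        have := i1 h
        simp only [fd, fc, pos, List.cons.injEq, true_and]
        refine ⟨by omega, this.2⟩

/-- The operator of `b + ad` on functions. -/
def xop (f : List Bool → ZMod 2) : List Bool → ZMod 2 := fun u => f (fb u) + f (fd (fa u))

theorem xop_step (f : List Bool → ZMod 2) (w : List Bool) (hne : w ≠ [])
    (hg : pos w % 2 = 1 ∨ fd w = w) (hlt : pos w + 2 < 2 ^ w.length) (h1 : f w = 1)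
    (h0 : ∀ u, u.length = w.length → pos w < pos u → f u = 0) :
    ∃ w', w'.length = w.length ∧ (pos w' % 2 = 1 ∨ fd w' = w') ∧ pos w' ≤ pos w + 2 ∧
      xop f w' = 1 ∧ ∀ u, u.length = w.length → pos w' < pos u → xop f u = 0 := by
  have P := pos_bcd
  -- general bound for the terms above
  have hle : ∀ u, u.length = w.length → u ≠ [] → pos w < pos (fb u) → pos w < pos (fd (fa u)) →
      xop f u = 0 := by
    intro u hu _ h2 h3
    unfold xop
    rw [h0 (fb u) (by rw [(length_fbcd u).1, hu]) h2,
      h0 (fd (fa u)) (by rw [(length_fbcd _).2.2, length_fa, hu]) h3, add_zero]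
  have hlen : ∀ u : List Bool, u.length = w.length → u ≠ [] := by
    intro u hu h
    rw [h] at hu
    exact hne (List.length_eq_zero_iff.mp hu.symm)
  rcases Nat.mod_two_eq_zero_or_one (pos w) with hw | hw
  · -- even case
    have hd : fd w = w := by
      rcases hg with h | h
      · omega
      · exact h
    have hfa := pos_fa w hne
    refine ⟨fa w, length_fa w, Or.inl (by omega), by omega, ?_, ?_⟩
    · have hPb := P (fa w)
      unfold xop
      rw [fa_fa, hd, h1, h0 (fb (fa w)) (by rw [(length_fbcd _).1, length_fa]) (by omega), zero_add]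
    · intro u hu hpu
      have hune := hlen u hu
      have hPu := P u
      have hua := pos_fa u hune
      have hPa := P (fa u)
      exact hle u hu hune (by omega) (by omega)
  · by_cases hd : fd w = w
    · -- odd, fixed by d
      obtain ⟨hb1, hb2⟩ := (pos_fix w hw (by omega)).1 hd
      refine ⟨fb w, (length_fbcd w).1, Or.inr hb2, by omega, ?_, ?_⟩
      · have hbne := hlen (fb w) (length_fbcd w).1
        have h2 := pos_fa (fb w) hbne
        have h3 := P (fa (fb w))
        unfold xop
        rw [fb_fb, h1, h0 (fd (fa (fb w)))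
          (by rw [(length_fbcd _).2.2, length_fa, (length_fbcd _).1]) (by omega), add_zero]
      · intro u hu hpu
        have hune := hlen u hu
        have hPu := P u
        have hua := pos_fa u hune
        have hPa := P (fa u)
        by_cases hc : pos (fa u) = pos (fb w)
        · have h4 : fa u = fb w := pos_inj _ _ (by rw [length_fa, hu, (length_fbcd w).1]) hc
          have h5 : fd (fa u) = fb w := by rw [h4, hb2]
          refine hle u hu hune (by omega) (by rw [h5]; omega)
        · exact hle u hu hune (by omega) (by omega)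
    · -- odd, moved by d
      have hPw := P w
      have hdp : pos (fd w) = pos w + 1 := by
        by_contra hcon
        have : pos (fd w) = pos w := by omega
        exact hd (pos_inj _ _ (length_fbcd w).2.2 this)
      have hdne := hlen (fd w) (length_fbcd w).2.2
      have h2 := pos_fa (fd w) hdne
      refine ⟨fa (fd w), by rw [length_fa, (length_fbcd w).2.2], Or.inl (by omega), by omega, ?_, ?_⟩
      · have h3 := P (fa (fd w))
        unfold xop
        rw [fa_fa, fd_fd, h1, h0 (fb (fa (fd w)))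
          (by rw [(length_fbcd _).1, length_fa, (length_fbcd _).2.2]) (by omega), zero_add]
      · intro u hu hpu
        have hune := hlen u hu
        have hPu := P u
        have hua := pos_fa u hune
        have hPa := P (fa u)
        exact hle u hu hune (by omega) (by omega)

theorem xop_pow (N n : ℕ) (hN : 2 * n < 2 ^ N) (hN0 : 0 < N) :
    ∃ w : List Bool, w.length = N ∧ (pos w % 2 = 1 ∨ fd w = w) ∧ pos w ≤ 2 * n ∧
      (xop^[n]) (fun u => if u = List.replicate N true then 1 else 0) w = 1 ∧
      ∀ u : List Bool, u.length = N → pos w < pos u →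
        (xop^[n]) (fun u => if u = List.replicate N true then 1 else 0) u = 0 := by
  induction n with
  | zero =>
    have h1 : ∀ m, fb (List.replicate m true) = List.replicate m true ∧
        fc (List.replicate m true) = List.replicate m true ∧
        fd (List.replicate m true) = List.replicate m true := by
      intro m
      induction m with
      | zero => simp [fb, fc, fd]
      | succ m ih => simp [fb, fc, fd, List.replicate_succ, ih]
    have h2 : ∀ m, pos (List.replicate m true) = 0 := by
      intro m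
      induction m with
      | zero => simp [pos]
      | succ m ih => simp [pos, List.replicate_succ, ih]
    refine ⟨List.replicate N true, by simp, Or.inr (h1 N).2.2, by simp [h2], by simp, ?_⟩
    intro u hu hpu
    rw [h2] at hpu
    simp only [Function.iterate_zero, id_eq]
    rw [if_neg]
    intro h
    rw [h, h2] at hpu
    omega
  | succ n ih =>
    obtain ⟨w, hw1, hw2, hw3, hw4, hw5⟩ := ih (by omega)
    have hne : w ≠ [] := by
      intro h
      rw [h] at hw1
      simp at hw1
      omega
    obtain ⟨w', a1, a2, a3, a4, a5⟩ := xop_step _ w hne hw2 (by rw [hw1]; omega) hw4 (by rw [hw1]; exact hw5)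
    rw [hw1] at a1 a5
    rw [Function.iterate_succ', Function.comp_apply]
    exact ⟨w', a1, a2, by omega, a4, a5⟩

theorem xop_pow_ne (n : ℕ) : ∃ f : List Bool → ZMod 2, (xop^[n]) f ≠ 0 := by
  obtain ⟨w, -, -, -, h, -⟩ := xop_pow (2 * n + 1) n
    (by
      have := Nat.lt_two_pow_self (n := 2 * n + 1)
      omega) (by omega)
  refine ⟨fun u => if u = List.replicate (2 * n + 1) true then 1 else 0, fun h0 => ?_⟩
  rw [h0] at h
  simp at h

def gA : Grig := ⟨pa, Subgroup.subset_closure (by simp)⟩
def gB : Grig := ⟨pb, Subgroup.subset_closure (by simp)⟩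
def gC : Grig := ⟨pc, Subgroup.subset_closure (by simp)⟩
def gD : Grig := ⟨pd, Subgroup.subset_closure (by simp)⟩

/-- action on functions -/
noncomputable def rho : Grig →* Module.End (ZMod 2) (List Bool → ZMod 2) where
  toFun g := LinearMap.funLeft (ZMod 2) (ZMod 2) ((g : Equiv.Perm (List Bool))⁻¹ : Equiv.Perm (List Bool))
  map_one' := by ext; simp [LinearMap.funLeft]
  map_mul' g h := by
    ext f u
    simp [LinearMap.funLeft, Equiv.Perm.mul_def]

noncomputable def Rho : MonoidAlgebra (ZMod 2) Grig →ₐ[ZMod 2] Module.End (ZMod 2) (List Bool → ZMod 2) :=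
  MonoidAlgebra.lift (ZMod 2) _ Grig rho

theorem Rho_single (g : Grig) (f : List Bool → ZMod 2) (u : List Bool) :
    Rho (MonoidAlgebra.single g 1) f u = f ((g : Equiv.Perm (List Bool))⁻¹ u) := by
  simp [Rho, rho, LinearMap.funLeft]
  

theorem fbcd_mul (w : List Bool) : fb (fc w) = fd w ∧ fb (fd w) = fc w ∧ fc (fb w) = fd w ∧
    fc (fd w) = fb w ∧ fd (fb w) = fc w ∧ fd (fc w) = fb w := by
  induction w with
  | nil => simp [fb, fc, fd]
  | cons x w ih =>
    cases x <;> simp [fb, fc, fd, fa_fa, ih]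

theorem fa_cons (x : Bool) (w : List Bool) : fa (x :: w) = (!x) :: w := rfl
theorem fa_nil : fa [] = [] := rfl

def G1 : Grig := gB * gA * gC * gA * gB * gA * gD * gA * gB * gA * gB * gA * gB
def G2 : Grig := gA * gD * gA * gB * gA * gD * gA * gB
def G3 : Grig := gA * gD * gA * gB * gA * gB * gA * gB * gA * gD * gA * gB * gA * gB * gA * gB

theorem A_inv : gA⁻¹ = gA := rfl
theorem B_inv : gB⁻¹ = gB := rfl
theorem C_inv : gC⁻¹ = gC := rfl
theorem D_inv : gD⁻¹ = gD := rfl

theorem A_apply (w : List Bool) : (gA : Equiv.Perm (List Bool)) w = fa w := rfl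
theorem B_apply (w : List Bool) : (gB : Equiv.Perm (List Bool)) w = fb w := rfl
theorem C_apply (w : List Bool) : (gC : Equiv.Perm (List Bool)) w = fc w := rfl
theorem D_apply (w : List Bool) : (gD : Equiv.Perm (List Bool)) w = fd w := rfl

theorem G1_left (w : List Bool) : ((G1⁻¹ : Grig) : Equiv.Perm (List Bool)) (false :: false :: w) =
    false :: false :: fd (fa (fb w)) := by
  simp only [G1, mul_inv_rev, A_inv, B_inv, C_inv, D_inv, Subgroup.coe_mul, Equiv.Perm.mul_apply,
    A_apply, B_apply, C_apply, D_apply]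
  simp only [fa_cons, fa_nil, Bool.not_true, Bool.not_false, fb, fc, fd, fa_fa, fb_fb, fc_fc, fd_fd]

theorem G2_left (w : List Bool) : ((G2⁻¹ : Grig) : Equiv.Perm (List Bool)) (false :: false :: w) =
    false :: false :: fc (fa w) := by
  simp only [G2, mul_inv_rev, A_inv, B_inv, C_inv, D_inv, Subgroup.coe_mul, Equiv.Perm.mul_apply,
    A_apply, B_apply, C_apply, D_apply]
  simp only [fa_cons, fa_nil, Bool.not_true, Bool.not_false, fb, fc, fd, fa_fa, fb_fb, fc_fc, fd_fd]

theorem G3_left (w : List Bool) : ((G3⁻¹ : Grig) : Equiv.Perm (List Bool)) (false :: false :: w) =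
    false :: false :: fd (fa (fd (fa w))) := by
  simp only [G3, mul_inv_rev, A_inv, B_inv, C_inv, D_inv, Subgroup.coe_mul, Equiv.Perm.mul_apply,
    A_apply, B_apply, C_apply, D_apply]
  simp only [fa_cons, fa_nil, Bool.not_true, Bool.not_false, fb, fc, fd, fa_fa, fb_fb, fc_fc, fd_fd]

theorem G1_right (w : List Bool) : (G1 : Equiv.Perm (List Bool)) (true :: w) = true :: w := by
  simp only [G1, mul_inv_rev, A_inv, B_inv, C_inv, D_inv, Subgroup.coe_mul, Equiv.Perm.mul_apply,
    A_apply, B_apply, C_apply, D_apply]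
  simp only [fa_cons, fa_nil, Bool.not_true, Bool.not_false, fb, fc, fd, fa_fa, fb_fb, fc_fc, fd_fd]

theorem G2_right (w : List Bool) : (G2 : Equiv.Perm (List Bool)) (true :: w) = true :: w := by
  simp only [G2, mul_inv_rev, A_inv, B_inv, C_inv, D_inv, Subgroup.coe_mul, Equiv.Perm.mul_apply,
    A_apply, B_apply, C_apply, D_apply]
  simp only [fa_cons, fa_nil, Bool.not_true, Bool.not_false, fb, fc, fd, fa_fa, fb_fb, fc_fc, fd_fd]

theorem G3_right (w : List Bool) : (G3 : Equiv.Perm (List Bool)) (true :: w) = true :: w := by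
  simp only [G3, mul_inv_rev, A_inv, B_inv, C_inv, D_inv, Subgroup.coe_mul, Equiv.Perm.mul_apply,
    A_apply, B_apply, C_apply, D_apply]
  simp only [fa_cons, fa_nil, Bool.not_true, Bool.not_false, fb, fc, fd, fa_fa, fb_fb, fc_fc, fd_fd]

theorem G_nil : (G1 : Equiv.Perm (List Bool)) [] = [] ∧ (G2 : Equiv.Perm (List Bool)) [] = [] ∧
    (G3 : Equiv.Perm (List Bool)) [] = [] := by
  refine ⟨?_, ?_, ?_⟩ <;>
  simp only [G1, G2, G3, mul_inv_rev, A_inv, B_inv, C_inv, D_inv, Subgroup.coe_mul, Equiv.Perm.mul_apply,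
    A_apply, B_apply, C_apply, D_apply] <;>
  simp only [fa_cons, fa_nil, Bool.not_true, Bool.not_false, fb, fc, fd, fa_fa, fb_fb, fc_fc, fd_fd]

/-- stabilizer of everything outside the left subtree -/
def HL : Subgroup Grig where
  carrier := {g | (g : Equiv.Perm (List Bool)) [] = [] ∧ ∀ w, (g : Equiv.Perm (List Bool)) (true :: w) = true :: w}
  mul_mem' := by
    rintro g h ⟨hg1, hg2⟩ ⟨hh1, hh2⟩
    refine ⟨by simp [hg1, hh1], fun w => by simp [hg2, hh2]⟩
  one_mem' := ⟨rfl, fun _ => rfl⟩
  inv_mem' := by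
    rintro g ⟨hg1, hg2⟩
    refine ⟨?_, fun w => ?_⟩
    · rw [Subgroup.coe_inv, Equiv.Perm.inv_eq_iff_eq, hg1]
    · rw [Subgroup.coe_inv, Equiv.Perm.inv_eq_iff_eq, hg2]

/-- stabilizer of everything outside the right subtree -/
def HR : Subgroup Grig where
  carrier := {g | (g : Equiv.Perm (List Bool)) [] = [] ∧ ∀ w, (g : Equiv.Perm (List Bool)) (false :: w) = false :: w}
  mul_mem' := by
    rintro g h ⟨hg1, hg2⟩ ⟨hh1, hh2⟩
    refine ⟨by simp [hg1, hh1], fun w => by simp [hg2, hh2]⟩
  one_mem' := ⟨rfl, fun _ => rfl⟩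
  inv_mem' := by
    rintro g ⟨hg1, hg2⟩
    refine ⟨?_, fun w => ?_⟩
    · rw [Subgroup.coe_inv, Equiv.Perm.inv_eq_iff_eq, hg1]
    · rw [Subgroup.coe_inv, Equiv.Perm.inv_eq_iff_eq, hg2]

theorem HL_maps (g : Grig) (hg : g ∈ HL) (w : List Bool) :
    ∃ w', (g : Equiv.Perm (List Bool)) (false :: w) = false :: w' := by
  obtain ⟨h1, h2⟩ := hg
  rcases hw : (g : Equiv.Perm (List Bool)) (false :: w) with _ | ⟨x, w'⟩
  · rw [← h1] at hw
    have := (g : Equiv.Perm (List Bool)).injective hw
    simp at this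
  · cases x with
    | false => exact ⟨w', rfl⟩
    | true =>
      rw [← h2 w'] at hw
      have := (g : Equiv.Perm (List Bool)).injective hw
      simp at this

theorem HR_maps (g : Grig) (hg : g ∈ HR) (w : List Bool) :
    ∃ w', (g : Equiv.Perm (List Bool)) (true :: w) = true :: w' := by
  obtain ⟨h1, h2⟩ := hg
  rcases hw : (g : Equiv.Perm (List Bool)) (true :: w) with _ | ⟨x, w'⟩
  · rw [← h1] at hw
    have := (g : Equiv.Perm (List Bool)).injective hw
    simp at this
  · cases x with
    | true => exact ⟨w', rfl⟩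
    | false =>
      rw [← h2 w'] at hw
      have := (g : Equiv.Perm (List Bool)).injective hw
      simp at this

theorem HL_HR_comm (g : Grig) (hg : g ∈ HL) (h : Grig) (hh : h ∈ HR) : g * h = h * g := by
  apply Subtype.ext
  ext1 u
  simp only [Subgroup.coe_mul, Equiv.Perm.mul_apply]
  rcases u with _ | ⟨x, w⟩
  · rw [hg.1, hh.1, hg.1]
  · cases x with
    | false =>
      obtain ⟨w', hw'⟩ := HL_maps g hg w
      rw [hh.2, hw', hh.2]
    | true =>
      obtain ⟨w', hw'⟩ := HR_maps h hh w
      rw [hg.2, hw', hg.2]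

theorem HL_HR_disj (g : Grig) (hg : g ∈ HL) (hh : g ∈ HR) : g = 1 := by
  apply Subtype.ext
  ext1 u
  rcases u with _ | ⟨x, w⟩
  · rw [hg.1]; rfl
  · cases x with
    | false => rw [hh.2]; rfl
    | true => rw [hg.2]; rfl

noncomputable def XL : MonoidAlgebra (ZMod 2) Grig :=
  MonoidAlgebra.single 1 1 + MonoidAlgebra.single G1 1 + MonoidAlgebra.single G2 1 +
    MonoidAlgebra.single G3 1

noncomputable def XR : MonoidAlgebra (ZMod 2) Grig :=
  MonoidAlgebra.single 1 1 + MonoidAlgebra.single (gA * G1 * gA) 1 +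
    MonoidAlgebra.single (gA * G2 * gA) 1 + MonoidAlgebra.single (gA * G3 * gA) 1

theorem G1_mem : G1 ∈ HL := ⟨G_nil.1, G1_right⟩
theorem G2_mem : G2 ∈ HL := ⟨G_nil.2.1, G2_right⟩
theorem G3_mem : G3 ∈ HL := ⟨G_nil.2.2, G3_right⟩

theorem conj_mem (g : Grig) (hg : g ∈ HL) : gA * g * gA ∈ HR := by
  obtain ⟨h1, h2⟩ := hg
  refine ⟨?_, fun w => ?_⟩
  · simp only [Subgroup.coe_mul, Equiv.Perm.mul_apply, A_apply, fa, h1]
  · simp only [Subgroup.coe_mul, Equiv.Perm.mul_apply, A_apply, fa, Bool.not_false, h2, Bool.not_true]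

theorem XR_eq : XR = MonoidAlgebra.single gA 1 * XL * MonoidAlgebra.single gA 1 := by
  have hAA : gA * gA = 1 := by rw [← A_inv]; exact mul_inv_cancel gA
  simp only [XL, XR, mul_add, add_mul, MonoidAlgebra.single_mul_single, mul_one, hAA]

/-- restriction of a function to the subtree at the vertex `00` -/
def Res (f : List Bool → ZMod 2) : List Bool → ZMod 2 := fun w => f (false :: false :: w)

theorem Res_XL (f : List Bool → ZMod 2) : Res (Rho XL f) = xop (xop (Res f)) := by
  funext w
  simp only [Res, XL, map_add, LinearMap.add_apply, Pi.add_apply, Rho_single]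
  have e1 := G1_left w
  have e2 := G2_left w
  have e3 := G3_left w
  simp only [Subgroup.coe_inv] at e1 e2 e3
  rw [e1, e2, e3]
  simp only [xop, Res, fb_fb, (fbcd_mul _).2.1, inv_one, OneMemClass.coe_one, Equiv.Perm.coe_one, id_eq]
  ring

theorem Res_XL_pow (n : ℕ) (f : List Bool → ZMod 2) :
    Res (Rho (XL ^ n) f) = xop^[2 * n] (Res f) := by
  induction n with
  | zero => simp
  | succ n ih =>
    rw [pow_succ', map_mul, Module.End.mul_apply, Res_XL, ih, mul_add, mul_one,
      Function.iterate_succ', Function.iterate_succ']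
    rfl

theorem XL_pow_ne (n : ℕ) : XL ^ n ≠ 0 := by
  intro h
  obtain ⟨f, hf⟩ := xop_pow_ne (2 * n)
  apply hf
  have h1 := Res_XL_pow n (fun w => match w with
    | false :: false :: w => f w
    | _ => 0)
  have h2 : Res (fun w => match w with
    | false :: false :: w => f w
    | _ => 0) = f := by
    funext w
    rfl
  rw [h2, h] at h1
  rw [← h1]
  simp only [map_zero]
  rfl

theorem XR_pow_ne (n : ℕ) : XR ^ n ≠ 0 := by
  have hAA : (MonoidAlgebra.single gA 1 : MonoidAlgebra (ZMod 2) Grig) * MonoidAlgebra.single gA 1 = 1 := by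
    have hAA : gA * gA = 1 := by rw [← A_inv]; exact mul_inv_cancel gA
    rw [MonoidAlgebra.single_mul_single, hAA, mul_one, MonoidAlgebra.one_def]
  have h1 : XR ^ n = MonoidAlgebra.single gA 1 * XL ^ n * MonoidAlgebra.single gA 1 := by
    induction n with
    | zero => rw [pow_zero, pow_zero, mul_one, hAA]
    | succ n ih =>
      rw [pow_succ, ih, XR_eq, pow_succ]
      calc _ = MonoidAlgebra.single gA 1 * XL ^ n * (MonoidAlgebra.single gA 1 * MonoidAlgebra.single gA 1) * XL * MonoidAlgebra.single gA 1 := by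
            simp only [mul_assoc]
        _ = _ := by rw [hAA]; simp only [mul_assoc, mul_one]
  rw [h1]
  intro h
  apply XL_pow_ne n
  calc XL ^ n = (MonoidAlgebra.single gA 1 * MonoidAlgebra.single gA 1) * XL ^ n * (MonoidAlgebra.single gA 1 * MonoidAlgebra.single gA 1) := by
        rw [hAA, one_mul, mul_one]
    _ = MonoidAlgebra.single gA 1 * (MonoidAlgebra.single gA 1 * XL ^ n * MonoidAlgebra.single gA 1) * MonoidAlgebra.single gA 1 := by
        simp only [mul_assoc]
    _ = 0 := by rw [h, mul_zero, zero_mul]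


theorem exists_functional {k R : Type} [Field k] [Ring R] [Algebra k R] (W : R)
    (hW : ∀ p : k[X], p ≠ 0 → aeval W p ≠ 0) :
    ∃ φ : R →+ FractionRing k[X], φ 1 = 1 ∧
      ∀ (p : k[X]) (r : R), φ (aeval W p * r) = algebraMap k[X] _ p * φ r := by
  let _ : Module k[X] R := Module.compHom R (aeval W : k[X] →ₐ[k] R).toRingHom
  have hsmul : ∀ (p : k[X]) (r : R), p • r = aeval W p * r := fun p r => rfl
  let S := nonZeroDivisors k[X]
  let M' := LocalizedModule S R
  let v : M' := LocalizedModule.mkLinearMap S R 1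
  have hv : v ≠ 0 := by
    intro h
    have := (IsLocalizedModule.eq_zero_iff S (LocalizedModule.mkLinearMap S R)).mp h
    obtain ⟨c, hc⟩ := this
    have h2 : aeval W (c : k[X]) * (1 : R) = 0 := hc
    rw [mul_one] at h2
    exact hW c (nonZeroDivisors.coe_ne_zero c) h2
  obtain ⟨g, hg⟩ := LinearMap.exists_leftInverse_of_injective
    (LinearMap.toSpanSingleton (FractionRing k[X]) M' v) (LinearMap.ker_toSpanSingleton _ hv)
  have hgv : g v = 1 := by
    have := congrArg (fun f => f 1) hg
    simpa using this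
  refine ⟨(g.toAddMonoidHom).comp (LocalizedModule.mkLinearMap S R).toAddMonoidHom, hgv, ?_⟩
  intro p r
  change g (LocalizedModule.mkLinearMap S R (aeval W p * r)) = _ * g (LocalizedModule.mkLinearMap S R r)
  have h1 : aeval W p * r = p • r := by rw [hsmul]
  rw [h1, map_smul, ← algebraMap_smul (FractionRing k[X]) p, map_smul, smul_eq_mul]

theorem no_right_inverse {k : Type} [Field k] {G : Type} [Group G] (H₁ H₂ : Subgroup G)
    (hcomm : ∀ g ∈ H₁, ∀ h ∈ H₂, g * h = h * g) (hdisj : ∀ g, g ∈ H₁ → g ∈ H₂ → g = 1)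
    (X₁ X₂ : MonoidAlgebra k G)
    (hX₁ : X₁ ∈ AddSubmonoid.closure {z | ∃ g ∈ H₁, ∃ r, z = MonoidAlgebra.single g r})
    (hX₂ : X₂ ∈ AddSubmonoid.closure {z | ∃ g ∈ H₂, ∃ r, z = MonoidAlgebra.single g r})
    (t₁ : ∀ p : k[X], p ≠ 0 → aeval X₁ p ≠ 0)
    (t₂ : ∀ p : k[X], p ≠ 0 → aeval X₂ p ≠ 0)
    (z : MonoidAlgebra k G) : (X₁ - X₂) * z ≠ 1 := by
  classical
  obtain ⟨φ, hφ1, hφ⟩ := exists_functional X₁ t₁
  obtain ⟨ψ, hψ1, hψ⟩ := exists_functional X₂ t₂
  set K := FractionRing k[X]
  set t : K := algebraMap k[X] K X with ht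
  have hφc : ∀ (g : G) (r : k), φ (MonoidAlgebra.single g r) =
      algebraMap k K r * φ (MonoidAlgebra.single g 1) := by
    intro g r
    have := hφ (C r) (MonoidAlgebra.single g 1)
    rw [aeval_C] at this
    rw [MonoidAlgebra.coe_algebraMap] at this
    simp at this
    rw [this]
    rfl
  have hψc : ∀ (g : G) (r : k), ψ (MonoidAlgebra.single g r) =
      algebraMap k K r * ψ (MonoidAlgebra.single g 1) := by
    intro g r
    have := hψ (C r) (MonoidAlgebra.single g 1)
    rw [aeval_C] at this
    rw [MonoidAlgebra.coe_algebraMap] at this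
    simp at this
    rw [this]
    rfl
  -- the function on G
  let ι : H₁ × H₂ → G := fun p => p.1 * p.2
  have hι : Function.Injective ι := by
    rintro ⟨⟨g, hg⟩, ⟨h, hh⟩⟩ ⟨⟨g', hg'⟩, ⟨h', hh'⟩⟩ heq
    simp only [ι] at heq
    have h3 : g'⁻¹ * g = h' * h⁻¹ := by
      rw [inv_mul_eq_iff_eq_mul, ← mul_assoc, eq_mul_inv_iff_mul_eq]; exact heq
    have h4 : g'⁻¹ * g = 1 := hdisj _ (H₁.mul_mem (H₁.inv_mem hg') hg)
      (h3 ▸ H₂.mul_mem hh' (H₂.inv_mem hh))
    have h5 : h' * h⁻¹ = 1 := h3 ▸ h4
    have e1 : g = g' := (inv_mul_eq_one.mp h4).symm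
    have e2 : h = h' := (mul_inv_eq_one.mp h5).symm
    subst e1 e2
    rfl
  let θ₀ : G → K := Function.extend ι
    (fun p => φ (MonoidAlgebra.single (p.1 : G) 1) * ψ (MonoidAlgebra.single (p.2 : G) 1)) 0
  have hθ₀ : ∀ g ∈ H₁, ∀ h ∈ H₂, θ₀ (g * h) =
      φ (MonoidAlgebra.single g 1) * ψ (MonoidAlgebra.single h 1) := by
    intro g hg h hh
    exact hι.extend_apply _ _ (⟨g, hg⟩, ⟨h, hh⟩)
  have hθ₀' : ∀ g, (¬ ∃ a, ι a = g) → θ₀ g = 0 := by
    intro g hg
    exact Function.extend_apply' _ _ _ hg
  let θ : MonoidAlgebra k G →+ K := MonoidAlgebra.liftNC (algebraMap k K : k →+ K) θ₀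
  have hθ : ∀ g r, θ (MonoidAlgebra.single g r) = algebraMap k K r * θ₀ g := by
    intro g r
    exact MonoidAlgebra.liftNC_single _ _ _ _
  have c1 : ∀ W ∈ AddSubmonoid.closure {z | ∃ g ∈ H₁, ∃ r : k, z = MonoidAlgebra.single g r},
      ∀ g ∈ H₁, ∀ h ∈ H₂, ∀ r : k, θ (W * MonoidAlgebra.single (g * h) r) =
        algebraMap k K r * (φ (W * MonoidAlgebra.single g 1) * ψ (MonoidAlgebra.single h 1)) := by
    intro W hW g hg h hh r
    induction hW using AddSubmonoid.closure_induction with
    | mem x hx =>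
      obtain ⟨g', hg', r', rfl⟩ := hx
      rw [MonoidAlgebra.single_mul_single, MonoidAlgebra.single_mul_single, ← mul_assoc, hθ,
        hθ₀ _ (H₁.mul_mem hg' hg) _ hh, mul_one, hφc (g' * g) r', map_mul]
      ring
    | zero => simp
    | add x y _ _ hx hy => rw [add_mul, map_add, hx, hy, add_mul, map_add]; ring
  have c2 : ∀ W ∈ AddSubmonoid.closure {z | ∃ g ∈ H₂, ∃ r : k, z = MonoidAlgebra.single g r},
      ∀ g ∈ H₁, ∀ h ∈ H₂, ∀ r : k, θ (W * MonoidAlgebra.single (g * h) r) =
        algebraMap k K r * (φ (MonoidAlgebra.single g 1) * ψ (W * MonoidAlgebra.single h 1)) := by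
    intro W hW g hg h hh r
    induction hW using AddSubmonoid.closure_induction with
    | mem x hx =>
      obtain ⟨h', hh', r', rfl⟩ := hx
      rw [MonoidAlgebra.single_mul_single, MonoidAlgebra.single_mul_single, ← mul_assoc,
        ← hcomm g hg h' hh', mul_assoc, hθ,
        hθ₀ _ hg _ (H₂.mul_mem hh' hh), mul_one, hψc (h' * h) r', map_mul]
      ring
    | zero => simp
    | add x y _ _ hx hy => rw [add_mul, map_add, hx, hy, add_mul, map_add]; ring
  have c3 : ∀ W ∈ AddSubmonoid.closure {z | ∃ g ∈ H₁, ∃ r : k, z = MonoidAlgebra.single g r},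
      ∀ x, (¬ ∃ a, ι a = x) → ∀ r : k, θ (W * MonoidAlgebra.single x r) = 0 := by
    intro W hW x hx r
    induction hW using AddSubmonoid.closure_induction with
    | mem y hy =>
      obtain ⟨g', hg', r', rfl⟩ := hy
      rw [MonoidAlgebra.single_mul_single, hθ, hθ₀', mul_zero]
      rintro ⟨⟨⟨g, hg⟩, ⟨h, hh⟩⟩, hgh⟩
      apply hx
      refine ⟨⟨⟨g'⁻¹ * g, H₁.mul_mem (H₁.inv_mem hg') hg⟩, ⟨h, hh⟩⟩, ?_⟩
      simp only [ι] at hgh ⊢
      rw [mul_assoc, hgh, inv_mul_cancel_left]
    | zero => simp
    | add x y _ _ hx hy => rw [add_mul, map_add, hx, hy, add_zero]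
  have c4 : ∀ W ∈ AddSubmonoid.closure {z | ∃ g ∈ H₂, ∃ r : k, z = MonoidAlgebra.single g r},
      ∀ x, (¬ ∃ a, ι a = x) → ∀ r : k, θ (W * MonoidAlgebra.single x r) = 0 := by
    intro W hW x hx r
    induction hW using AddSubmonoid.closure_induction with
    | mem y hy =>
      obtain ⟨h', hh', r', rfl⟩ := hy
      rw [MonoidAlgebra.single_mul_single, hθ, hθ₀', mul_zero]
      rintro ⟨⟨⟨g, hg⟩, ⟨h, hh⟩⟩, hgh⟩
      apply hx
      refine ⟨⟨⟨g, hg⟩, ⟨h'⁻¹ * h, H₂.mul_mem (H₂.inv_mem hh') hh⟩⟩, ?_⟩
      simp only [ι] at hgh ⊢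
      rw [← mul_assoc, hcomm g hg _ (H₂.inv_mem hh'), mul_assoc, hgh, inv_mul_cancel_left]
    | zero => simp
    | add x y _ _ hx hy => rw [add_mul, map_add, hx, hy, add_zero]
  have main : ∀ z, θ ((X₁ - X₂) * z) = 0 := by
    intro z
    induction z using MonoidAlgebra.induction_linear with
    | zero => simp
    | add x y hx hy => rw [mul_add, map_add, hx, hy, add_zero]
    | single x r =>
      rw [sub_mul, map_sub]
      by_cases hx : ∃ a, ι a = x
      · obtain ⟨⟨⟨g, hg⟩, ⟨h, hh⟩⟩, rfl⟩ := hx
        simp only [ι]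
        rw [c1 X₁ hX₁ g hg h hh r, c2 X₂ hX₂ g hg h hh r]
        have e1 := hφ X (MonoidAlgebra.single g 1)
        have e2 := hψ X (MonoidAlgebra.single h 1)
        rw [aeval_X] at e1 e2
        rw [e1, e2]
        ring
      · rw [c3 X₁ hX₁ x hx r, c4 X₂ hX₂ x hx r, sub_zero]
  intro hz
  have h0 := main z
  rw [hz] at h0
  have h1 : θ 1 = 1 := by
    rw [MonoidAlgebra.one_def, hθ]
    have := hθ₀ 1 H₁.one_mem 1 H₂.one_mem
    rw [mul_one] at this
    rw [this, ← MonoidAlgebra.one_def, hφ1, hψ1]
    simp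
  rw [h1] at h0
  exact one_ne_zero h0

theorem transcendental_of_radical {k : Type} [Field k] {R : Type} [Ring R] [Algebra k R]
    (I : Ideal R) (hI : ∀ x ∈ I, ∀ r : R, x * r ∈ I) (hU : ∀ x ∈ I, IsUnit (1 + x)) (x : R)
    (hx : x ∈ I) (hn : ∀ n : ℕ, x ^ n ≠ 0) (p : k[X]) (hp : p ≠ 0) : aeval x p ≠ 0 := by
  intro h0
  obtain ⟨q, hq, hdvd⟩ := exists_eq_pow_rootMultiplicity_mul_and_not_dvd p hp 0
  set n := rootMultiplicity 0 p
  rw [map_zero, sub_zero] at hq hdvd
  rw [X_dvd_iff] at hdvd
  set c := q.coeff 0 with hc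
  have hq2 := divX_mul_X_add q
  have hu : IsUnit (aeval x q) := by
    have h1 : aeval x q = algebraMap k R c * (1 + x * (algebraMap k R c⁻¹ * aeval x q.divX)) := by
      conv_lhs => rw [← hq2]
      rw [map_add, map_mul, aeval_X, aeval_C, mul_add, mul_one, add_comm, ← hc]
      congr 1
      rw [← mul_assoc, (Algebra.commutes c x), mul_assoc, ← mul_assoc (algebraMap k R c),
        ← map_mul, mul_inv_cancel₀ hdvd, map_one, one_mul]
      have h2 : aeval x (q.divX * X) = aeval x (X * q.divX) := by rw [mul_comm]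
      rwa [map_mul, map_mul, aeval_X] at h2
    rw [h1]
    exact ((isUnit_iff_ne_zero.mpr hdvd).map (algebraMap k R)).mul (hU _ (hI x hx _))
  rw [hq, map_mul, map_pow, aeval_X] at h0
  exact hn n ((hu.mul_left_eq_zero).mp h0)


theorem not_radical {k : Type} [Field k] {G : Type} [Group G] (H₁ H₂ : Subgroup G)
    (hcomm : ∀ g ∈ H₁, ∀ h ∈ H₂, g * h = h * g) (hdisj : ∀ g, g ∈ H₁ → g ∈ H₂ → g = 1)
    (I : Ideal (MonoidAlgebra k G)) (hI : ∀ x ∈ I, ∀ r : MonoidAlgebra k G, x * r ∈ I)
    (hJ : I ≤ Ideal.jacobson ⊥)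
    (X₁ X₂ : MonoidAlgebra k G)
    (hX₁ : X₁ ∈ AddSubmonoid.closure {z | ∃ g ∈ H₁, ∃ r, z = MonoidAlgebra.single g r})
    (hX₂ : X₂ ∈ AddSubmonoid.closure {z | ∃ g ∈ H₂, ∃ r, z = MonoidAlgebra.single g r})
    (h₁ : X₁ ∈ I) (h₂ : X₂ ∈ I) (n₁ : ∀ n : ℕ, X₁ ^ n ≠ 0) (n₂ : ∀ n : ℕ, X₂ ^ n ≠ 0) : False := by
  have hleft : ∀ x ∈ I, ∃ z, z * (1 + x) = 1 := by
    intro x hx
    obtain ⟨z, hz⟩ := Ideal.mem_jacobson_iff.mp (hJ hx) 1
    refine ⟨z, ?_⟩
    rw [Ideal.mem_bot, sub_eq_zero, mul_one] at hz
    rw [mul_add, mul_one, add_comm]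
    exact hz
  have hU : ∀ x ∈ I, IsUnit (1 + x) := by
    intro x hx
    obtain ⟨z, hz⟩ := hleft x hx
    have h3 : z = 1 + (-(z * x)) := by
      rw [mul_add, mul_one] at hz
      rw [← hz]; abel
    obtain ⟨w, hw⟩ := hleft (-(z * x)) (I.neg_mem (I.mul_mem_left z hx))
    rw [← h3] at hw
    have h4 : w = 1 + x := by
      calc w = w * (z * (1 + x)) := by rw [hz, mul_one]
        _ = 1 + x := by rw [← mul_assoc, hw, one_mul]
    rw [h4] at hw
    exact ⟨⟨1 + x, z, hw, hz⟩, rfl⟩
  have t₁ := transcendental_of_radical (k := k) I hI hU X₁ h₁ n₁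
  have t₂' := transcendental_of_radical (k := k) I hI hU X₂ h₂ n₂
  have t₂ : ∀ p : k[X], p ≠ 0 → aeval (1 + X₂) p ≠ 0 := by
    intro p hp
    have h5 : taylor 1 p ≠ 0 := by
      intro h
      exact hp (taylor_injective (1 : k) (by rw [h, map_zero]))
    have h6 := t₂' _ h5
    rw [taylor_apply, aeval_comp] at h6
    simpa [add_comm] using h6
  have hX₂' : 1 + X₂ ∈ AddSubmonoid.closure {z | ∃ g ∈ H₂, ∃ r : k, z = MonoidAlgebra.single g r} :=
    AddSubmonoid.add_mem _ (AddSubmonoid.subset_closure ⟨1, H₂.one_mem, 1, rfl⟩) hX₂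
  obtain ⟨u, hu⟩ := hU (X₂ - X₁) (I.sub_mem h₂ h₁)
  apply no_right_inverse H₁ H₂ hcomm hdisj X₁ (1 + X₂) hX₁ hX₂' t₁ t₂ (-(↑(u⁻¹) : MonoidAlgebra k G))
  have : X₁ - (1 + X₂) = - (u : MonoidAlgebra k G) := by rw [hu]; abel
  rw [this, neg_mul_neg, Units.mul_inv]

theorem ker_mul_right (x : MonoidAlgebra (ZMod 2) Grig) (hx : x ∈ RingHom.ker aug)
    (r : MonoidAlgebra (ZMod 2) Grig) : x * r ∈ RingHom.ker aug := by
  rw [RingHom.mem_ker] at hx ⊢
  rw [map_mul, hx, zero_mul]

theorem aug_single (g : Grig) : aug (MonoidAlgebra.single g 1) = 1 := by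
  simp [aug]

theorem XL_mem : XL ∈ RingHom.ker aug := by
  rw [RingHom.mem_ker, XL, map_add, map_add, map_add]
  simp only [aug_single]
  decide

theorem XR_mem : XR ∈ RingHom.ker aug := by
  rw [RingHom.mem_ker, XR, map_add, map_add, map_add]
  simp only [aug_single]
  decide

theorem XL_closure : XL ∈ AddSubmonoid.closure
    {z | ∃ g ∈ HL, ∃ r : ZMod 2, z = MonoidAlgebra.single g r} := by
  refine AddSubmonoid.add_mem _ (AddSubmonoid.add_mem _ (AddSubmonoid.add_mem _ ?_ ?_) ?_) ?_
  · exact AddSubmonoid.subset_closure ⟨1, HL.one_mem, 1, rfl⟩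
  · exact AddSubmonoid.subset_closure ⟨G1, G1_mem, 1, rfl⟩
  · exact AddSubmonoid.subset_closure ⟨G2, G2_mem, 1, rfl⟩
  · exact AddSubmonoid.subset_closure ⟨G3, G3_mem, 1, rfl⟩

theorem XR_closure : XR ∈ AddSubmonoid.closure
    {z | ∃ g ∈ HR, ∃ r : ZMod 2, z = MonoidAlgebra.single g r} := by
  refine AddSubmonoid.add_mem _ (AddSubmonoid.add_mem _ (AddSubmonoid.add_mem _ ?_ ?_) ?_) ?_
  · exact AddSubmonoid.subset_closure ⟨1, HR.one_mem, 1, rfl⟩
  · exact AddSubmonoid.subset_closure ⟨_, conj_mem _ G1_mem, 1, rfl⟩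
  · exact AddSubmonoid.subset_closure ⟨_, conj_mem _ G2_mem, 1, rfl⟩
  · exact AddSubmonoid.subset_closure ⟨_, conj_mem _ G3_mem, 1, rfl⟩

/-- The augmentation ideal of the group algebra of the first Grigorchuk group over the field with
two elements contains an element that does not lie in the Jacobson radical (the intersection of
all maximal left ideals). -/
theorem result : ∃ x : MonoidAlgebra (ZMod 2) Grig,
    aug x = 0 ∧ x ∉ Ideal.jacobson (⊥ : Ideal (MonoidAlgebra (ZMod 2) Grig)) := by
  by_contra hcon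
  push Not at hcon
  exact not_radical HL HR (fun g hg h hh => HL_HR_comm g hg h hh) HL_HR_disj (RingHom.ker aug)
    ker_mul_right (fun x hx => hcon x ((RingHom.mem_ker).mp hx)) XL XR XL_closure XR_closure
    XL_mem XR_mem XL_pow_ne XR_pow_ne

end Pool.Agent.Results.MP_2e8808_al.GrigorchukJacobson
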